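import Mathlib
import Pool.Agent.Helper353.Cut.Final

/-!
# Cutoff for nearly uniform biased transposition walks

For weights `p` on ordered pairs of elements of `[n]` the biased transposition walk picks at each
step a pair `(i, j)` with probability `p i j` and composes the current permutation with the
transposition `(i j)` (the identity if `i = j`).  We prove that for every `0 < c ≤ C` every
sequence of weights with `c / n ^ 2 ≤ p i j ≤ C / n ^ 2` exhibits cutoff in total variation.
Both conventions for the composition (from the left and from the right) are covered.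
-/

open scoped BigOperators Topology
open Filter

namespace Pool.Agent.Results.MP_8c2010_pr.Cutoff

/-- The weights `p` are a probability distribution on ordered pairs of elements of `[n]` which is
nearly uniform with constants `c`, `C`. -/
structure NearlyUniform {n : ℕ} (c C : ℝ) (p : Fin n → Fin n → ℝ) : Prop where
  /-- the total mass is one -/
  total : ∑ i, ∑ j, p i j = 1
  /-- lower bound for the weights -/
  lower : ∀ i j, c / (n : ℝ) ^ 2 ≤ p i j
  /-- upper bound for the weights -/
  upper : ∀ i j, p i j ≤ C / (n : ℝ) ^ 2

/-- The state reached from the permutation `x` by composing it with the transposition `(i j)`,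
from the left if `left` is true and from the right if `left` is false. -/
def move {n : ℕ} (left : Bool) (x : Equiv.Perm (Fin n)) (i j : Fin n) : Equiv.Perm (Fin n) :=
  if left = true then Equiv.swap i j * x else x * Equiv.swap i j

/-- The transition matrix of the biased transposition walk on the permutations of `[n]` with
weights `p`. -/
noncomputable def transition {n : ℕ} (left : Bool) (p : Fin n → Fin n → ℝ) :
    Matrix (Equiv.Perm (Fin n)) (Equiv.Perm (Fin n)) ℝ :=
  fun x y => ∑ i, ∑ j, if move left x i j = y then p i j else 0

/-- The total variation distance between the law at time `t` of the walk started from `x` and the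
uniform distribution on the `n!` permutations of `[n]`. -/
noncomputable def tvDist {n : ℕ} (left : Bool) (p : Fin n → Fin n → ℝ) (t : ℕ)
    (x : Equiv.Perm (Fin n)) : ℝ :=
  1 / 2 * ∑ y, |(transition left p ^ t) x y - 1 / (n.factorial : ℝ)|

/-- The mixing time: the least time `t` at which the total variation distance to the uniform
distribution is at most `ε` for every starting state. -/
noncomputable def mixingTime {n : ℕ} (left : Bool) (p : Fin n → Fin n → ℝ) (ε : ℝ) : ℕ :=
  sInf {t : ℕ | ∀ x, tvDist left p t x ≤ ε}

/-- The sequence of walks with weights `p n` exhibits cutoff. -/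
def ExhibitsCutoff (left : Bool) (p : (n : ℕ) → Fin n → Fin n → ℝ) : Prop :=
  ∀ ε : ℝ, 0 < ε → ε < 1 →
    Tendsto (fun n : ℕ => (mixingTime left (p n) ε : ℝ) / (mixingTime left (p n) (1 - ε) : ℝ))
      atTop (𝓝 1)

section Proof

open Pool.Agent.Helper353.Cut

variable {n : ℕ}

lemma transition_mulVec_true (p : Fin n → Fin n → ℝ) (f : G n → ℝ) :
    (transition true p).mulVec f = P p f := by
  funext x
  rw [P_apply, Matrix.mulVec, dotProduct]
  simp only [transition, move, if_true, Finset.sum_mul, ite_mul, zero_mul]
  rw [Finset.sum_comm]
  refine Finset.sum_congr rfl fun i _ => ?_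
  rw [Finset.sum_comm]
  refine Finset.sum_congr rfl fun j _ => ?_
  rw [Finset.sum_ite_eq]
  simp

lemma transition_mulVec_false (p : Fin n → Fin n → ℝ) (f : G n → ℝ) (x : G n) :
    (transition false p).mulVec f x = P p (fun z => f z⁻¹) x⁻¹ := by
  rw [P_apply, Matrix.mulVec, dotProduct]
  simp only [transition, move, Bool.false_eq_true, if_false, Finset.sum_mul, ite_mul, zero_mul]
  rw [Finset.sum_comm]
  refine Finset.sum_congr rfl fun i _ => ?_
  rw [Finset.sum_comm]
  refine Finset.sum_congr rfl fun j _ => ?_
  rw [Finset.sum_ite_eq]
  simp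

lemma transition_pow_true (p : Fin n → Fin n → ℝ) (t : ℕ) (f : G n → ℝ) :
    (transition true p ^ t).mulVec f = (P p ^ t) f := by
  induction t with
  | zero => simp
  | succ t ih =>
    rw [pow_succ', ← Matrix.mulVec_mulVec, ih, transition_mulVec_true, Ppow_succ_apply]

lemma transition_pow_false (p : Fin n → Fin n → ℝ) (t : ℕ) (f : G n → ℝ) (x : G n) :
    (transition false p ^ t).mulVec f x = (P p ^ t) (fun z => f z⁻¹) x⁻¹ := by
  induction t generalizing x with
  | zero => simp
  | succ t ih =>
    rw [pow_succ', ← Matrix.mulVec_mulVec, transition_mulVec_false, Ppow_succ_apply]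
    have h : (fun z : G n => (transition false p ^ t).mulVec f z⁻¹) =
        (P p ^ t) (fun z => f z⁻¹) := by
      funext z
      rw [ih, inv_inv]
    rw [h]

lemma tvDist_eq (left : Bool) (p : Fin n → Fin n → ℝ) (t : ℕ) (x : G n) :
    tvDist left p t x = tv (qt p t) := by
  have hcard : (n.factorial : ℝ) = (Fintype.card (G n) : ℝ) := by
    have := Fintype.card_perm (α := Fin n)
    rw [Fintype.card_fin] at this
    exact_mod_cast this.symm
  have hpos := card_pos (n := n)
  have key : ∃ e : G n ≃ G n, ∀ y, (transition left p ^ t) x y =
      qt p t (e y) / (Fintype.card (G n) : ℝ) := by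
    cases left with
    | true =>
      refine ⟨Equiv.mulRight x⁻¹, fun y => ?_⟩
      have h1 := congrFun (transition_pow_true p t (fun z => if z = y then 1 else 0)) x
      rw [Ppow_ind] at h1
      simp only [Matrix.mulVec, dotProduct, mul_ite, mul_one, mul_zero] at h1
      rw [Finset.sum_ite_eq'] at h1
      simpa using h1
    | false =>
      refine ⟨(Equiv.inv (G n)).trans (Equiv.mulRight x), fun y => ?_⟩
      have h1 := transition_pow_false p t (fun z => if z = y then 1 else 0) x
      have h2 : (fun z : G n => if z⁻¹ = y then (1 : ℝ) else 0) =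
          fun z => if z = y⁻¹ then (1 : ℝ) else 0 := by
        funext z
        simp only [inv_eq_iff_eq_inv]
      rw [h2, Ppow_ind, inv_inv] at h1
      simp only [Matrix.mulVec, dotProduct, mul_ite, mul_one, mul_zero] at h1
      rw [Finset.sum_ite_eq'] at h1
      simpa using h1
  obtain ⟨e, he⟩ := key
  unfold tvDist tv av
  rw [hcard]
  congr 1
  rw [Finset.sum_div]
  have h3 := Equiv.sum_comp e (fun z => |qt p t z - 1| / (Fintype.card (G n) : ℝ))
  rw [← h3]
  refine Finset.sum_congr rfl fun y _ => ?_
  rw [he y, div_sub_div_same, abs_div, abs_of_pos hpos]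

lemma mixingTime_eq (left : Bool) (p : Fin n → Fin n → ℝ) (ε : ℝ) :
    mixingTime left p ε = mixT p ε := by
  unfold mixingTime mixT
  congr 1
  ext t
  simp only [Set.mem_ofPred_eq, tvDist_eq]
  exact ⟨fun h => h 1, fun h _ => h⟩

end Proof

/-- **Every sequence of nearly uniform biased transposition walks exhibits cutoff.** -/
theorem result (left : Bool) (c C : ℝ) (hc : 0 < c) (hcC : c ≤ C)
    (p : (n : ℕ) → Fin n → Fin n → ℝ) (hp : ∀ n, 2 ≤ n → NearlyUniform c C (p n)) :
    ExhibitsCutoff left p := by
  intro ε h0 h1
  have h := Pool.Agent.Helper353.Cut.ratio_tendsto hc hcC p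
    (fun n hn => ⟨(hp n hn).total, (hp n hn).lower, (hp n hn).upper⟩) h0 h1
  refine h.congr fun n => ?_
  rw [mixingTime_eq, mixingTime_eq]

end Pool.Agent.Results.MP_8c2010_pr.Cutoff
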